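import Pool.Agent.Lib.MP_a80a1d_h76.Final

set_option autoImplicit false

namespace Pool.Agent.Results.MP_a80a1d_co.SqrtLogBound

theorem result (k : ℕ) (F : SimpleGraph (Fin k)) (hF : F.IsAcyclic)
    (hm : ∃ m : ℕ, ∀ i j : Fin k, F.Adj i j → (i.val < m ↔ m ≤ j.val)) :
    ∃ C : ℝ, ∀ (n : ℕ) (G : SimpleGraph (Fin n)),
      (¬ ∃ f : Fin k → Fin n, StrictMono f ∧ ∀ i j : Fin k, F.Adj i j → G.Adj (f i) (f j)) →
      (G.edgeSet.ncard : ℝ) ≤ n * Real.exp (C * √(Real.log n)) :=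
  Pool.Agent.Lib.MP_a80a1d_h76.sqrt_log_bound k F hF hm

end Pool.Agent.Results.MP_a80a1d_co.SqrtLogBound
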